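import Pool.Agent.MP_0c1703_gt.H59.Kit
import Pool.Agent.MP_0c1703_gt.H58R.Main

/-! Assembly of the rows: cancellation in dimension one. -/

namespace Pool.Agent.MP_0c1703_gt.H59

open Set Filter Topology Pool.Agent.MP_0c1703_gt.H58
open scoped Real

def SBoxAll : Prop := ∀ (Y : Type) [MetricSpace Y] [CompactSpace Y], DimLE1 Y →
  ∀ y : Y, Mov y → HasBox y

theorem sBoxAll (hDim : SDim) (hLF : SLF) (hTree : STree) (hImm : SImm) (hTwo : STwo)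
    (hTri : SNoTri) (hNF : SNF) (hW : SWhit) (hRays : SRays) (hPlaq : SPlaq) (hBox : SBox) :
    SBoxAll := by
  intro Y _ _ hd y hy
  obtain ⟨B, hB, hyB, hlf⟩ := hLF Y (hDim Y hd) y hy
  have lin : ∀ B' : Set Y, IsOpen B' → B' ⊆ B ∩ {y | Mov y} → Lin B' := fun B' h1 h2 =>
    have hn : Nice B' := ⟨h1, hlf.mono fun z hz => (h2 hz).1, fun z hz => (h2 hz).2⟩
    ⟨h1, hTree Y B' hn.lf, hTwo Y B' hn, hTri Y B' hn⟩
  obtain ⟨B₀, o₀, m₀, s₀, uf⟩ :=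
    hNF Y _ (lin _ (hB.inter (hImm Y).2.1) Subset.rfl) y ⟨hyB, hy⟩ hy
  obtain ⟨μ, hμ⟩ := hW Y
  have l₀ := lin B₀ o₀ s₀
  obtain ⟨N, gp, gm, m, ep, em, hN, hR⟩ := hRays Y B₀ μ y hμ l₀ uf m₀
  obtain ⟨N', h, hN', hP⟩ := hPlaq Y B₀ μ N gp gm m ep em y hμ l₀ uf hR hN
  exact hBox Y N' h m y hP hN'

theorem HasBox.map {Y : Type} [MetricSpace Y] (f : Y ≃ₜ Y) {y : Y} (h : HasBox y) :
    HasBox (f y) := by
  obtain ⟨C, _, g, hg, w, rfl⟩ := h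
  exact ⟨C, inferInstance, f ∘ g, ⟨f.isLocalHomeomorph.comp hg.loc, hg.tpd⟩, w, rfl⟩

def SHom : Prop := ∀ (Z Y V : Type) [TopologicalSpace Z] [T2Space Z] [MetricSpace Y]
  [CompactSpace Y] [Nonempty Y] [TopologicalSpace V] [CompactSpace V] (n p : Z) (q : Y × ℝ → Z)
  (q' : V × ℝ → Z), Susp Z Y n p q → Susp Z V n p q' → (∀ y : Y, Mov y → HasBox y) →
  Nonempty (V ≃ₜ Y)

theorem sHom (hPair : SPair) (hMu : SMu) (h1 : SPsi1) (h2 : SPsi2) (h3 : SPsi3) : SHom := by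
  intro Z Y V _ _ _ _ _ _ _ n p q q' hq hq' hb
  obtain ⟨Γ, Θ, A, τ, a₀, a₁, b₁, b₀, α, β, hP⟩ := hPair Z Y V n p q q' hq hq' hb
  obtain ⟨δ, hδ⟩ := hMu Y
  obtain ⟨Ψ, hΨ, hR⟩ := h1 Y V δ Γ Θ A τ a₀ a₁ b₁ b₀ α β hδ hP
  have hinj : Function.Injective Ψ := fun v v' e =>
    h2 Y V δ Γ Θ A τ a₀ a₁ b₁ b₀ α β hδ hP v v' (Ψ v) ((hR _ _).2 rfl) ((hR _ _).2 e)
  have hcl : IsClosed {y | ∃ v, Rel δ Γ Θ a₀ b₀ v y} := by
    have : {y | ∃ v, Rel δ Γ Θ a₀ b₀ v y} = range Ψ := by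
      ext y; simp only [hR, mem_setOf_eq, mem_range, eq_comm]
    rw [this]; exact (isCompact_range hΨ).isClosed
  have hsurj : Function.Surjective Ψ := fun y =>
    let ⟨v, hv⟩ := h3 Y V δ Γ Θ A τ a₀ a₁ b₁ b₀ α β hδ hP hcl y
    ⟨v, ((hR _ _).1 hv).symm⟩
  exact ⟨Continuous.homeoOfEquivCompactToT2 (f := Equiv.ofBijective Ψ ⟨hinj, hsurj⟩) hΨ⟩

def SCanc1 : Prop := ∀ (Y : Type) [MetricSpace Y] [CompactSpace Y] [Nonempty Y], DimLE1 Y →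
  (∃ (X : Type) (_ : MetricSpace X), GroupSpace X ∧ Nonempty (Bd X ≃ₜ Y)) → ¬ IsSusp Y →
  Nontrivial Y ∧ Canc Y

theorem sCanc1 (hAll : SBoxAll) (hHom : SHom) (hPole : SPole) (hC1 : SCirc1) (hC2 : SCirc2)
    (hFin : SFin) (hSus : SSus) : SCanc1 := by
  intro Y _ _ _ hd ⟨X, _, hX, he⟩ hs
  have hb := hAll Y hd
  have fin : ∀ E : Set Y, E.Finite → E.Nonempty → (∀ f : Y ≃ₜ Y, ∀ y ∈ E, f y ∈ E) → False := by
    intro E h1 h2 h3
    obtain ⟨W, _, _, n, p, q, hq⟩ := hFin X Y E hX he h1 h2 h3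
    exact hs (hSus Y W n p q hq)
  have pole : ∀ (Z V : Type) [TopologicalSpace Z] [T2Space Z] [TopologicalSpace V] [CompactSpace V]
      (n p n' p' : Z) (q : Y × ℝ → Z) (q' : V × ℝ → Z), Susp Z Y n p q → Susp Z V n' p' q' →
      n' = n ∨ n' = p := by
    intro Z V _ _ _ _ n p n' p' q q' hq hq'
    rcases hq.surj n' with h | h | ⟨y₀, θ₀, hθ, h⟩
    · exact Or.inl h
    · exact Or.inr h
    exfalso
    obtain ⟨⟨E, hE, hM⟩, hloc⟩ := hPole Z Y V n p n' p' q q' y₀ θ₀ hq hq' hθ h.symm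
    by_cases hall : ∀ y : Y, HasBox y
    · obtain ⟨c, α, β, hc, hu⟩ := hC1 Y E y₀ hall hE (fun y hy => (hM y hy).2) hloc
      obtain ⟨n, p, q, hq⟩ := hC2 Y c α β hc hu
      exact hs (hSus Y Bool n p q hq)
    · push Not at hall
      refine fin {y | ¬ HasBox y} (hE.subset fun y hy => ?_) hall fun f y hy h => hy ?_
      · by_contra h; exact hy (hb y (hM y h).1)
      · simpa using h.map f.symm
  refine ⟨?_, fun Z V _ _ _ _ n p n' p' q q' hq hq' => ?_⟩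
  · rcases subsingleton_or_nontrivial Y with h | h
    · exact (fin univ (toFinite _) univ_nonempty fun _ _ _ => trivial).elim
    · exact h
  have h1 := pole Z V n p n' p' q q' hq hq'
  have h2 := pole Z V n p p' n' q _ hq hq'.rev
  refine ⟨h1, ?_⟩
  rcases h1 with rfl | rfl
  · rcases h2 with rfl | rfl
    · exact absurd rfl hq'.ne
    · exact hHom Z Y V _ _ q q' hq hq' hb
  · rcases h2 with rfl | rfl
    · exact hHom Z Y V _ _ q _ hq hq'.rev hb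
    · exact absurd rfl hq'.ne

end Pool.Agent.MP_0c1703_gt.H59
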