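import Pool.Agent.MP_0c1703_gt.H58.Defs

/-! Covering dimension at most one, and being a suspension: definitions of the statement. -/

namespace Pool.Agent.MP_0c1703_gt.H59

open Set

/-- Lebesgue covering dimension at most one: every finite open cover has a finite open refinement
in which every point lies in at most two sets. -/
def DimLE1 (Y : Type) [TopologicalSpace Y] : Prop :=
  ∀ 𝒰 : Set (Set Y), 𝒰.Finite → (∀ U ∈ 𝒰, IsOpen U) → ⋃₀ 𝒰 = univ →
    ∃ 𝒱 : Set (Set Y), 𝒱.Finite ∧ (∀ V ∈ 𝒱, IsOpen V) ∧ ⋃₀ 𝒱 = univ ∧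
      (∀ V ∈ 𝒱, ∃ U ∈ 𝒰, V ⊆ U) ∧ ∀ y, {V ∈ 𝒱 | y ∈ V}.ncard ≤ 2

/-- Y is a suspension: of the empty space (two points), or of a nonempty space W. -/
def IsSusp (Y : Type) [TopologicalSpace Y] : Prop :=
  Nonempty (Y ≃ₜ Bool) ∨
    ∃ (W : Type) (_ : TopologicalSpace W), Nonempty W ∧ Nonempty (Y ≃ₜ H58.Join Bool W)

end Pool.Agent.MP_0c1703_gt.H59
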