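import Pool.Agent.MP_0c1703_gt.H59.Spec

/-! Small tools on paths, arcs and logarithms. -/

namespace Pool.Agent.MP_0c1703_gt.H59

open Set Filter Topology
open scoped Real

section paths
variable {Y : Type} [MetricSpace Y] {B B' : Set Y} {γ c c' : ℝ → Y} {s t a b a' b' : ℝ}

theorem PathIn.mono (h : PathIn B γ s t) (hB : B ⊆ B') : PathIn B' γ s t :=
  ⟨h.le, h.cont, h.mem.mono_right hB⟩

theorem PathIn.sub (h : PathIn B γ s t) {u v : ℝ} (h1 : s ≤ u) (h2 : u ≤ v) (h3 : v ≤ t) :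
    PathIn B γ u v :=
  ⟨h2, h.cont.mono (Icc_subset_Icc h1 h3), h.mem.mono_left (Icc_subset_Icc h1 h3)⟩

theorem PathIn.image (h : PathIn B γ s t) : PathIn (γ '' Icc s t) γ s t :=
  ⟨h.le, h.cont, mapsTo_image _ _⟩

theorem PathIn.image_subset (h : PathIn B γ s t) : γ '' Icc s t ⊆ B := h.mem.image_subset

theorem PathIn.isCompact (h : PathIn B γ s t) : IsCompact (γ '' Icc s t) :=
  isCompact_Icc.image_of_continuousOn h.cont

theorem PathIn.rev (h : PathIn B γ s t) : PathIn B (fun r => γ (-r)) (-t) (-s) := by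
  have hm : MapsTo (fun r : ℝ => -r) (Icc (-t) (-s)) (Icc s t) := fun r hr =>
    ⟨by linarith [hr.2], by linarith [hr.1]⟩
  exact ⟨by linarith [h.le], h.cont.comp continuous_neg.continuousOn hm, h.mem.comp hm⟩

omit [MetricSpace Y] in
theorem image_neg_Icc (γ : ℝ → Y) (s t : ℝ) :
    (fun r => γ (-r)) '' Icc (-t) (-s) = γ '' Icc s t := by
  ext y
  constructor
  · rintro ⟨r, hr, rfl⟩
    exact ⟨-r, ⟨by linarith [hr.2], by linarith [hr.1]⟩, rfl⟩
  · rintro ⟨r, hr, rfl⟩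
    exact ⟨-r, ⟨by linarith [hr.2], by linarith [hr.1]⟩, by simp⟩

theorem PathIn.joined (h : PathIn B γ s t) {u v : ℝ} (hu : u ∈ Icc s t) (hv : v ∈ Icc s t) :
    JoinedIn B (γ u) (γ v) := by
  have h1 : IsPathConnected (Icc s t) := (convex_Icc s t).isPathConnected ⟨u, hu⟩
  exact ((h1.image' h.cont).joinedIn _ (mem_image_of_mem _ hu) _ (mem_image_of_mem _ hv)).mono
    h.image_subset

theorem exists_pathIn {x y : Y} (h : JoinedIn B x y) :
    ∃ γ : ℝ → Y, PathIn B γ 0 1 ∧ γ 0 = x ∧ γ 1 = y := by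
  obtain ⟨p, hp⟩ := h
  refine ⟨p.extend, ⟨zero_le_one, p.continuous_extend.continuousOn, fun r hr => ?_⟩, by simp, by simp⟩
  rw [p.extend_apply hr]
  exact hp _

theorem ArcIn.mono (h : ArcIn B c a b) (hB : B ⊆ B') : ArcIn B' c a b := ⟨h.path.mono hB, h.inj⟩

theorem ArcIn.sub (h : ArcIn B c a b) {u v : ℝ} (h1 : a ≤ u) (h2 : u ≤ v) (h3 : v ≤ b) :
    ArcIn B c u v :=
  ⟨h.path.sub h1 h2 h3, h.inj.mono (Icc_subset_Icc h1 h3)⟩

theorem ArcIn.rev (h : ArcIn B c a b) : ArcIn B (fun r => c (-r)) (-b) (-a) := by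
  refine ⟨h.path.rev, fun u hu v hv e => ?_⟩
  have := h.inj ⟨by linarith [hu.2], by linarith [hu.1]⟩ ⟨by linarith [hv.2], by linarith [hv.1]⟩ e
  linarith

/-- c backwards followed by c' -/
noncomputable def cat (c : ℝ → Y) (a : ℝ) (c' : ℝ → Y) (a' : ℝ) (ξ : ℝ) : Y :=
  if ξ ≤ 0 then c (a - ξ) else c' (a' + ξ)

omit [MetricSpace Y] in
theorem cat_of_nonpos {ξ : ℝ} (h : ξ ≤ 0) : cat c a c' a' ξ = c (a - ξ) := if_pos h

omit [MetricSpace Y] in
theorem cat_of_nonneg (e : c a = c' a') {ξ : ℝ} (h : 0 ≤ ξ) : cat c a c' a' ξ = c' (a' + ξ) := by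
  rcases h.eq_or_lt with rfl | h
  · simp [cat, e]
  · exact if_neg (not_le.2 h)

theorem PathIn.cat (h : PathIn B c a b) (h' : PathIn B c' a' b') (e : c a = c' a') :
    PathIn B (cat c a c' a') (a - b) (b' - a') := by
  have h1 := h.le
  have h2 := h'.le
  have m1 : MapsTo (fun ξ : ℝ => a - ξ) (Icc (a - b) 0) (Icc a b) := fun r hr =>
    ⟨by linarith [hr.2], by linarith [hr.1]⟩
  have m2 : MapsTo (fun ξ : ℝ => a' + ξ) (Icc 0 (b' - a')) (Icc a' b') := fun r hr =>
    ⟨by linarith [hr.1], by linarith [hr.2]⟩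
  have c1 : ContinuousOn (H59.cat c a c' a') (Icc (a - b) 0) :=
    (h.cont.comp (by fun_prop) m1).congr fun r hr => cat_of_nonpos hr.2
  have c2 : ContinuousOn (H59.cat c a c' a') (Icc 0 (b' - a')) :=
    (h'.cont.comp (by fun_prop) m2).congr fun r hr => cat_of_nonneg e hr.1
  refine ⟨by linarith, ?_, fun r hr => ?_⟩
  · rw [← Icc_union_Icc_eq_Icc (show a - b ≤ 0 by linarith) (show 0 ≤ b' - a' by linarith)]
    exact c1.union_of_isClosed c2 isClosed_Icc isClosed_Icc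
  · rcases le_total r 0 with h0 | h0
    · rw [cat_of_nonpos h0]; exact h.mem (m1 ⟨hr.1, h0⟩)
    · rw [cat_of_nonneg e h0]; exact h'.mem (m2 ⟨h0, hr.2⟩)

omit [MetricSpace Y] in
theorem image_cat (h1 : a ≤ b) (h2 : a' ≤ b') (e : c a = c' a') :
    cat c a c' a' '' Icc (a - b) (b' - a') = c '' Icc a b ∪ c' '' Icc a' b' := by
  ext y
  constructor
  · rintro ⟨r, hr, rfl⟩
    rcases le_total r 0 with h0 | h0
    · exact Or.inl ⟨a - r, ⟨by linarith, by linarith [hr.1]⟩, (cat_of_nonpos h0).symm⟩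
    · exact Or.inr ⟨a' + r, ⟨by linarith, by linarith [hr.2]⟩, (cat_of_nonneg e h0).symm⟩
  · rintro (⟨r, hr, rfl⟩ | ⟨r, hr, rfl⟩)
    · refine ⟨a - r, ⟨by linarith [hr.2], by linarith [hr.1]⟩, ?_⟩
      rw [cat_of_nonpos (by linarith [hr.1])]; simp
    · refine ⟨r - a', ⟨by linarith [hr.1], by linarith [hr.2]⟩, ?_⟩
      rw [cat_of_nonneg e (by linarith [hr.1])]; simp

/-- two arcs from the same point that meet only there form an arc -/
theorem ArcIn.cat (h : ArcIn B c a b) (h' : ArcIn B c' a' b') (e : c a = c' a')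
    (hd : ∀ u ∈ Icc a b, ∀ v ∈ Icc a' b', c u = c' v → u = a) :
    ArcIn B (cat c a c' a') (a - b) (b' - a') := by
  have h1 := h.path.le
  have h2 := h'.path.le
  have key : ∀ u ∈ Icc (a - b) (b' - a'), ∀ v ∈ Icc (a - b) (b' - a'), u ≤ 0 → 0 ≤ v →
      H59.cat c a c' a' u = H59.cat c a c' a' v → u = v := by
    intro u hu v hv u0 v0 euv
    rw [cat_of_nonpos u0, cat_of_nonneg e v0] at euv
    have k := hd _ ⟨by linarith, by linarith [hu.1]⟩ _ ⟨by linarith, by linarith [hv.2]⟩ euv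
    rw [k, e] at euv
    have := h'.inj ⟨le_rfl, h2⟩ ⟨by linarith, by linarith [hv.2]⟩ euv
    linarith
  refine ⟨h.path.cat h'.path e, fun u hu v hv euv => ?_⟩
  rcases le_total u 0 with u0 | u0 <;> rcases le_total v 0 with v0 | v0
  · rw [cat_of_nonpos u0, cat_of_nonpos v0] at euv
    have := h.inj ⟨by linarith, by linarith [hu.1]⟩ ⟨by linarith, by linarith [hv.1]⟩ euv
    linarith
  · exact key u hu v hv u0 v0 euv
  · exact (key v hv u hu v0 u0 euv.symm).symm
  · rw [cat_of_nonneg e u0, cat_of_nonneg e v0] at euv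
    have := h'.inj ⟨by linarith, by linarith [hu.2]⟩ ⟨by linarith, by linarith [hv.2]⟩ euv
    linarith

/-- the ends of an arc are separated by each of its points -/
theorem Tree.not_joined (hT : Tree B) (h : ArcIn B c a b) {ξ : ℝ} (hξ : ξ ∈ Icc a b) :
    ¬ JoinedIn (B \ {c ξ}) (c a) (c b) := by
  intro hj
  obtain ⟨γ, hγ, e0, e1⟩ := exists_pathIn hj
  obtain ⟨r, hr, er⟩ := hT c a b γ 0 1 h (hγ.mono sdiff_subset) e0 e1 (mem_image_of_mem _ hξ)
  exact (hγ.mem hr).2 er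

theorem Tree.image_eq (hT : Tree B) (h : ArcIn B c a b) (h' : ArcIn B c' a' b') (e0 : c a = c' a')
    (e1 : c b = c' b') : c '' Icc a b = c' '' Icc a' b' :=
  (hT c a b c' a' b' h h'.path e0.symm e1.symm).antisymm (hT c' a' b' c a b h' h.path e0 e1)

/-- points of an arc on the same side of ξ are joined off c ξ -/
theorem ArcIn.joined_diff (h : ArcIn B c a b) {ξ u v : ℝ} (hξ : ξ ∈ Icc a b) (hu : u ∈ Icc a b)
    (hv : v ∈ Icc a b) (hs : (u < ξ ∧ v < ξ) ∨ (ξ < u ∧ ξ < v)) :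
    JoinedIn (B \ {c ξ}) (c u) (c v) := by
  have hs1 : Icc (min u v) (max u v) ⊆ Icc a b :=
    Icc_subset_Icc (le_min hu.1 hv.1) (max_le hu.2 hv.2)
  have hp : PathIn (B \ {c ξ}) c (min u v) (max u v) := by
    refine ⟨min_le_max, h.path.cont.mono hs1, fun r hr => ⟨h.path.mem (hs1 hr), fun e => ?_⟩⟩
    have e' : r = ξ := h.inj (hs1 hr) hξ e
    rcases hs with ⟨h1, h2⟩ | ⟨h1, h2⟩
    · exact absurd (hr.2.trans_lt (max_lt h1 h2)) (by rw [e']; exact lt_irrefl _)
    · exact absurd ((lt_min h1 h2).trans_le hr.1) (by rw [e']; exact lt_irrefl _)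
  exact hp.joined ⟨min_le_left _ _, le_max_left _ _⟩ ⟨min_le_right _ _, le_max_right _ _⟩

theorem LF.mono (h : LF B') (hB : B ⊆ B') : LF B :=
  fun γ s t u l hγ => h γ s t u l (hγ.mono hB)

theorem Tree.mono (h : Tree B') (hB : B ⊆ B') : Tree B :=
  fun c a b γ s t hc hγ => h c a b γ s t (hc.mono hB) (hγ.mono hB)

theorem UF.mono (h : UF B') (hB : B ⊆ B') : UF B := fun η hη =>
  let ⟨δ, hδ, H⟩ := h η hη
  ⟨δ, hδ, fun c a b hc => H c a b (hc.mono hB)⟩

end paths

/-- continuity descends along a map from a compact set to a Hausdorff space -/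
theorem quot {A Y Z : Type} [TopologicalSpace A] [TopologicalSpace Y] [T2Space Y]
    [TopologicalSpace Z] {K : Set A} {g : A → Y} {f : Y → Z} (hK : IsCompact K)
    (hg : ContinuousOn g K) (hf : ContinuousOn (fun a => f (g a)) K) : ContinuousOn f (g '' K) := by
  rw [continuousOn_iff_isClosed]
  intro C hC
  obtain ⟨u, hu, e⟩ := continuousOn_iff_isClosed.1 hf C hC
  have h1 : IsCompact (u ∩ K) := hK.inter_left hu
  refine ⟨g '' (u ∩ K), (h1.image_of_continuousOn (hg.mono inter_subset_right)).isClosed, ?_⟩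
  ext y
  constructor
  · rintro ⟨hy, a, ha, rfl⟩
    have : a ∈ u ∩ K := by rw [← e]; exact ⟨hy, ha⟩
    exact ⟨⟨a, this, rfl⟩, a, ha, rfl⟩
  · rintro ⟨⟨a, ha, rfl⟩, hy⟩
    have : a ∈ (fun a => f (g a)) ⁻¹' C ∩ K := by rw [e]; exact ha
    exact ⟨this.1, hy⟩

/-- two logarithms of the same function on a preconnected set differ by a constant -/
theorem log_unique {A : Type} [TopologicalSpace A] {E : Set A} (hE : IsPreconnected E)
    {l l' : A → ℂ} (hl : ContinuousOn l E) (hl' : ContinuousOn l' E)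
    (e : ∀ w ∈ E, Complex.exp (l w) = Complex.exp (l' w)) :
    ∃ k : ℤ, ∀ w ∈ E, l w = l' w + k * (2 * π * Complex.I) := by
  rcases E.eq_empty_or_nonempty with rfl | ⟨w₀, hw₀⟩
  · exact ⟨0, fun w hw => hw.elim⟩
  obtain ⟨k, hk⟩ := Complex.exp_eq_exp_iff_exists_int.1 (e w₀ hw₀)
  refine ⟨k, fun w hw => ?_⟩
  have hc := Complex.isCoveringMap_exp
  refine hc.eqOn_of_comp_eqOn hE hl (g₂ := fun w => l' w + k * (2 * π * Complex.I))
    (hl'.add continuousOn_const) (fun z hz => Subtype.ext ?_) hw₀ hk hw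
  simp only [Function.comp]
  rw [Complex.exp_add, Complex.exp_int_mul_two_pi_mul_I, mul_one]
  exact e z hz

/-- a nonvanishing continuous function on a convex set has a logarithm -/
theorem hasLog_convex {E : Type} [NormedAddCommGroup E] [NormedSpace ℝ E] {K : Set E}
    (hK : Convex ℝ K) {u : E → ℂ} (hu : ContinuousOn u K) (h0 : ∀ w ∈ K, u w ≠ 0) :
    HasLog u K := by
  classical
  rcases K.eq_empty_or_nonempty with rfl | ⟨w₀, hw₀⟩
  · exact ⟨0, continuousOn_empty _, fun w hw => hw.elim⟩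
  have hc := Complex.isCoveringMap_exp
  have hm : ∀ p : unitInterval × K, w₀ + (p.1 : ℝ) • ((p.2 : E) - w₀) ∈ K := fun p =>
    hK.add_smul_sub_mem hw₀ p.2.2 p.1.2
  let H : C(unitInterval × K, {z : ℂ // z ≠ 0}) :=
    ⟨fun p => ⟨u (w₀ + (p.1 : ℝ) • ((p.2 : E) - w₀)), h0 _ (hm p)⟩,
      (hu.comp_continuous (by fun_prop) hm).subtype_mk _⟩
  let f : C(K, ℂ) := ContinuousMap.const _ (Complex.log (u w₀))
  have H0 : ∀ a : K, H (0, a) = (⟨_, (f a).exp_ne_zero⟩ : {z : ℂ // z ≠ 0}) := fun a =>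
    Subtype.ext (by simp [H, f, Complex.exp_log (h0 _ hw₀)])
  let L := hc.liftHomotopy H f H0
  have hL := hc.liftHomotopy_lifts H f H0
  refine ⟨fun w => if hw : w ∈ K then L (1, ⟨w, hw⟩) else 0, ?_, fun w hw => ?_⟩
  · rw [continuousOn_iff_continuous_domRestrict]
    have : (K.domRestrict fun w => if hw : w ∈ K then L (1, ⟨w, hw⟩) else 0) =
        fun a : K => L (1, a) := by
      ext a; exact dif_pos a.2
    rw [this]; fun_prop
  · simp only [dif_pos hw]
    have h1 : Complex.exp (L (1, ⟨w, hw⟩)) = u (w₀ + ((1 : unitInterval) : ℝ) • (w - w₀)) :=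
      congrArg Subtype.val (congrFun hL (1, ⟨w, hw⟩))
    simpa using h1

/-- a continuous locally injective real function on an interval is injective -/
theorem injOn_of_loc {f : ℝ → ℝ} {a b : ℝ} (hf : ContinuousOn f (Icc a b))
    (hl : ∀ x ∈ Ioo a b, ∃ ε > 0, InjOn f (Ioo (x - ε) (x + ε))) : InjOn f (Icc a b) := by
  have key : ∀ u ∈ Icc a b, ∀ v ∈ Icc a b, u < v → f u ≠ f v := by
    intro u hu v hv huv e
    have hs : Icc u v ⊆ Icc a b := Icc_subset_Icc hu.1 hv.2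
    obtain ⟨x, hx, hext⟩ := exists_Ioo_extr_on_Icc huv (hf.mono hs) e
    obtain ⟨ε, hε, hi⟩ := hl x ⟨hu.1.trans_lt hx.1, hx.2.trans_le hv.2⟩
    set ρ := min (ε / 2) (min (x - u) (v - x)) with hρ
    have ρ0 : 0 < ρ := lt_min (by linarith) (lt_min (by linarith [hx.1]) (by linarith [hx.2]))
    have ρ1 : ρ ≤ ε / 2 := min_le_left _ _
    have ρ2 : ρ ≤ x - u := (min_le_right _ _).trans (min_le_left _ _)
    have ρ3 : ρ ≤ v - x := (min_le_right _ _).trans (min_le_right _ _)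
    have s1 : Icc (x - ρ) (x + ρ) ⊆ Icc u v := Icc_subset_Icc (by linarith) (by linarith)
    have s2 : Icc (x - ρ) (x + ρ) ⊆ Ioo (x - ε) (x + ε) := Icc_subset_Ioo (by linarith) (by linarith)
    have m0 : x ∈ Icc (x - ρ) (x + ρ) := ⟨by linarith, by linarith⟩
    have m1 : x - ρ ∈ Icc (x - ρ) (x + ρ) := ⟨le_rfl, by linarith⟩
    have m2 : x + ρ ∈ Icc (x - ρ) (x + ρ) := ⟨by linarith, le_rfl⟩
    rcases (hf.mono (s1.trans hs)).strictMonoOn_of_injOn_Icc' (by linarith) (hi.mono s2) with hm | hm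
    · have k1 := hm m1 m0 (by linarith)
      have k2 := hm m0 m2 (by linarith)
      rcases hext with h | h
      · exact absurd (h (s1 m1)) (not_le.2 k1)
      · exact absurd (h (s1 m2)) (not_le.2 k2)
    · have k1 := hm m1 m0 (by linarith)
      have k2 := hm m0 m2 (by linarith)
      rcases hext with h | h
      · exact absurd (h (s1 m2)) (not_le.2 k2)
      · exact absurd (h (s1 m1)) (not_le.2 k1)
  intro u hu v hv e
  rcases lt_trichotomy u v with h | h | h
  · exact absurd e (key u hu v hv h)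
  · exact h
  · exact absurd e.symm (key v hv u hu h)

end Pool.Agent.MP_0c1703_gt.H59
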