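import Pool.Agent.MP_0c1703_gt.H58.Spec
import Pool.Agent.MP_0c1703_gt.H59.Defs

/-! Cancellation of suspensions in dimension one: internal definitions and row statements
(plan: /team-store/0c1703_plan1D.md). -/

namespace Pool.Agent.MP_0c1703_gt.H59

open Set Filter Topology Pool.Agent.MP_0c1703_gt.H58
open scoped Real

section defs
variable {Y : Type} [MetricSpace Y]

/-- γ is a path on [s,t] inside B -/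
structure PathIn (B : Set Y) (γ : ℝ → Y) (s t : ℝ) : Prop where
  le : s ≤ t
  cont : ContinuousOn γ (Icc s t)
  mem : MapsTo γ (Icc s t) B

/-- c is an arc (possibly a point) on [a,b] inside B -/
structure ArcIn (B : Set Y) (c : ℝ → Y) (a b : ℝ) : Prop where
  path : PathIn B c a b
  inj : InjOn c (Icc a b)

/-- u has a continuous logarithm on E -/
def HasLog {A : Type} [TopologicalSpace A] (u : A → ℂ) (E : Set A) : Prop :=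
  ∃ l : A → ℂ, ContinuousOn l E ∧ ∀ w ∈ E, Complex.exp (l w) = u w

/-- loops in B do not wind -/
def LF (B : Set Y) : Prop :=
  ∀ (γ : ℝ → Y) (s t : ℝ) (u : Y → ℂ) (l : ℝ → ℂ), PathIn B γ s t → γ s = γ t →
    ContinuousOn u (γ '' Icc s t) → ContinuousOn l (Icc s t) →
    (∀ r ∈ Icc s t, Complex.exp (l r) = u (γ r)) → l s = l t

/-- every path in B between the ends of an arc in B covers the arc -/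
def Tree (B : Set Y) : Prop :=
  ∀ (c : ℝ → Y) (a b : ℝ) (γ : ℝ → Y) (s t : ℝ), ArcIn B c a b → PathIn B γ s t →
    γ s = c a → γ t = c b → c '' Icc a b ⊆ γ '' Icc s t

/-- at least two directions at y -/
def Two (B : Set Y) (y : Y) : Prop :=
  ∃ y₁ y₂, JoinedIn B y y₁ ∧ JoinedIn B y y₂ ∧ y₁ ≠ y ∧ y₂ ≠ y ∧ ¬ JoinedIn (B \ {y}) y₁ y₂

/-- at least three directions at y -/
def Three (B : Set Y) (y : Y) : Prop :=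
  ∃ z : Fin 3 → Y, (∀ i, JoinedIn B y (z i) ∧ z i ≠ y) ∧
    ∀ i j, i ≠ j → ¬ JoinedIn (B \ {y}) (z i) (z j)

/-- an open set whose path components are open intervals -/
structure Lin (B : Set Y) : Prop where
  op : IsOpen B
  tree : Tree B
  two : ∀ y ∈ B, Two B y
  three : ∀ y ∈ B, ¬ Three B y

/-- arcs in B with close ends are small -/
def UF (B : Set Y) : Prop :=
  ∀ η > 0, ∃ δ > 0, ∀ (c : ℝ → Y) (a b : ℝ), ArcIn B c a b → dist (c a) (c b) < δ →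
    ∀ ξ ∈ Icc a b, dist (c a) (c ξ) < η

/-- a local flow on Y × ℝ with domain D -/
structure LFlow (D : Set ((Y × ℝ) × ℝ)) (F : Y × ℝ → ℝ → Y × ℝ) : Prop where
  op : IsOpen D
  cont : ContinuousOn (fun p : (Y × ℝ) × ℝ => F p.1 p.2) D
  zero : ∀ w s, (w, s) ∈ D → F w 0 = w
  sub : ∀ w s, (w, s) ∈ D → ∀ r ∈ uIcc 0 s, (w, r) ∈ D
  shift : ∀ w s r, (w, s) ∈ D → (w, r) ∈ D → (F w r, s - r) ∈ D ∧ F (F w r) (s - r) = F w s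

/-- some local flow moves a point over y sideways -/
def Mov (y : Y) : Prop :=
  ∃ (D : Set ((Y × ℝ) × ℝ)) (F : Y × ℝ → ℝ → Y × ℝ) (θ s : ℝ),
    LFlow D F ∧ 0 < s ∧ ((y, θ), s) ∈ D ∧ (F (y, θ) s).1 ≠ y

/-- the flow moves (y, θ) sideways over B -/
structure Slide (B : Set Y) (y : Y) (D : Set ((Y × ℝ) × ℝ)) (F : Y × ℝ → ℝ → Y × ℝ)
    (θ s : ℝ) : Prop where
  flow : LFlow D F
  pos : 0 < s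
  dom : ((y, θ), s) ∈ D
  mem : ∀ r ∈ Icc 0 s, (F (y, θ) r).1 ∈ B
  ne : (F (y, θ) s).1 ≠ y

/-- an open set without winding loops, all of whose points move -/
structure Nice (B : Set Y) : Prop where
  op : IsOpen B
  lf : LF B
  mov : ∀ y ∈ B, Mov y

/-- mutually inverse homeomorphisms of open subsets of B × ℝ -/
structure LocH (B : Set Y) (O O' : Set (Y × ℝ)) (T S : Y × ℝ → Y × ℝ) : Prop where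
  op : IsOpen O
  op' : IsOpen O'
  sub : ∀ w ∈ O, w.1 ∈ B
  sub' : ∀ w ∈ O', w.1 ∈ B
  cont : ContinuousOn T O
  cont' : ContinuousOn S O'
  maps : MapsTo T O O'
  maps' : MapsTo S O' O
  inv : ∀ w ∈ O, S (T w) = w
  inv' : ∀ w ∈ O', T (S w) = w

/-- a Whitney size function -/
structure Whit (μ : Set Y → ℝ) : Prop where
  zero : ∀ x, μ {x} = 0
  mono : ∀ A A' : Set Y, A.Nonempty → A ⊆ A' → μ A ≤ μ A'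
  strict : ∀ η > 0, ∃ κ > 0, ∀ (A A' : Set Y) (x : Y), A.Nonempty → A ⊆ A' → x ∈ A' →
    (∀ a ∈ A, η ≤ dist x a) → μ A + κ ≤ μ A'
  lip : ∀ (A A' : Set Y) (η : ℝ), A.Nonempty → (∀ a ∈ A, ∃ a' ∈ A', dist a a' ≤ η) →
    (∀ a' ∈ A', ∃ a ∈ A, dist a a' ≤ η) → |μ A - μ A'| ≤ η

/-- an arc on [0,m] parametrised by its Whitney size -/
structure WArc (B : Set Y) (μ : Set Y → ℝ) (g : ℝ → Y) (m : ℝ) : Prop where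
  arc : ArcIn B g 0 m
  size : ∀ ξ ∈ Icc 0 m, μ (g '' Icc 0 ξ) = ξ

/-- two continuous families of rays of size m in opposite directions -/
structure Rays (B : Set Y) (μ : Set Y → ℝ) (N : Set Y) (gp gm : Y → ℝ → Y) (m : ℝ)
    (ep em : Y) : Prop where
  pos : 0 < m
  op : IsOpen N
  sub : N ⊆ B
  ne : ep ≠ em
  arcp : ∀ y ∈ N, WArc B μ (gp y) m ∧ gp y 0 = y ∧ dist (gp y m) ep < dist ep em / 4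
  arcm : ∀ y ∈ N, WArc B μ (gm y) m ∧ gm y 0 = y ∧ dist (gm y m) em < dist ep em / 4
  opp : ∀ y ∈ N, ¬ JoinedIn (B \ {y}) (gp y m) (gm y m)
  contp : ContinuousOn (fun w : Y × ℝ => gp w.1 w.2) (N ×ˢ Icc 0 m)
  contm : ContinuousOn (fun w : Y × ℝ => gm w.1 w.2) (N ×ˢ Icc 0 m)

/-- a continuous family of oriented plaques -/
structure Plaq (N : Set Y) (h : Y → ℝ → Y) (m : ℝ) : Prop where
  pos : 0 < m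
  op : IsOpen N
  cont : ContinuousOn (fun w : Y × ℝ => h w.1 w.2) (N ×ˢ Icc (-m) m)
  zero : ∀ y ∈ N, h y 0 = y
  uf : ∀ ε > 0, ∃ δ > 0, ∀ y ∈ N, ∀ ξ ∈ Icc (-m) m, dist y (h y ξ) < δ → |ξ| < ε
  back : ∀ y ∈ N, ∀ ξ ∈ Icc (-m) m, h y ξ ∈ N → h (h y ξ) (-ξ) = y
  behind : ∀ y ∈ N, ∀ ξ ξ' : ℝ, 0 < ξ → ξ ≤ ξ' → ξ' ≤ m → h y ξ ∈ N →
    ∃ ζ ∈ Ico 0 ξ', h y (-ζ) = h (h y ξ) (-ξ')
  ahead : ∀ y ∈ N, ∀ ξ₁ ξ₂ : ℝ, -m ≤ ξ₁ → ξ₁ < ξ₂ → ξ₂ ≤ m → h y ξ₁ ∈ N → h y ξ₂ ∈ N →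
    ∃ ζ ∈ Ioc 0 m, h (h y ξ₁) ζ = h y ξ₂
  loc : ∀ y ∈ N, ∀ y', JoinedIn N y y' → ∃ ξ ∈ Icc (-m) m, y' = h y ξ

/-- every path in C is constant -/
def TPD (C : Type) [TopologicalSpace C] : Prop :=
  ∀ (f : ℝ → C) (a b : ℝ), a ≤ b → ContinuousOn f (Icc a b) → f a = f b

/-- an immersed flow box -/
structure Box {C : Type} [TopologicalSpace C] (h : C × ℝ → Y) : Prop where
  loc : IsLocalHomeomorph h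
  tpd : TPD C

/-- an immersed flow box over the open part C₀ of the transversal -/
structure BoxOn {C : Type} [TopologicalSpace C] (h : C × ℝ → Y) (C₀ : Set C) : Prop where
  op : IsOpen C₀
  loc : IsLocalHomeomorphOn h (C₀ ×ˢ univ)
  tpd : TPD C

/-- y lies in a flow box -/
def HasBox (y : Y) : Prop :=
  ∃ (C : Type) (_ : TopologicalSpace C) (h : C × ℝ → Y), Box h ∧ y ∈ range h

/-- a curve that is locally a whole path component -/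
structure Leaf (c : ℝ → Y) : Prop where
  cont : Continuous c
  inj : ∀ ξ, ∃ ε > 0, InjOn c (Ioo (ξ - ε) (ξ + ε))
  lift : ∀ ξ, ∀ ε > 0, ∃ U ∈ 𝓝 (c ξ), ∀ (γ : ℝ → Y) (s t : ℝ), PathIn U γ s t → γ s = c ξ →
    ∃ ψ : ℝ → ℝ, ContinuousOn ψ (Icc s t) ∧ ψ s = ξ ∧
      ∀ u ∈ Icc s t, |ψ u - ξ| < ε ∧ c (ψ u) = γ u

/-- a signed length of curves -/
structure Mu (δ : (ℝ → Y) → ℝ → ℝ → ℝ) : Prop where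
  bd : ∀ c ξ ξ', |δ c ξ ξ'| ≤ 1
  anti : ∀ c ξ ξ', δ c ξ ξ' = -δ c ξ' ξ
  mono : ∀ c, Leaf c → ∀ ξ, StrictMono (δ c ξ)
  cont : ∀ (C : Type) [TopologicalSpace C] (h : C × ℝ → Y), Continuous h →
    Continuous fun w : C × ℝ × ℝ => δ (fun ξ => h (w.1, ξ)) w.2.1 w.2.2
  invp : ∀ (c c' : ℝ → Y) (φ : ℝ → ℝ) (ξ ξ' : ℝ), ξ ≤ ξ' → ContinuousOn φ (Icc ξ ξ') →
    MonotoneOn φ (Icc ξ ξ') → (∀ u ∈ Icc ξ ξ', c' (φ u) = c u) → δ c' (φ ξ) (φ ξ') = δ c ξ ξ'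
  invm : ∀ (c c' : ℝ → Y) (φ : ℝ → ℝ) (ξ ξ' : ℝ), ξ ≤ ξ' → ContinuousOn φ (Icc ξ ξ') →
    AntitoneOn φ (Icc ξ ξ') → (∀ u ∈ Icc ξ ξ', c' (φ u) = c u) → δ c' (φ ξ) (φ ξ') = -δ c ξ ξ'

/-- the penalised maximum of f along a curve with height θ -/
noncomputable def Top (f θ : ℝ → ℝ) (a b : ℝ) : ℝ :=
  sSup ((fun t => f t - 12 / π * |θ t - π / 2|) '' Icc a b)

/-- ξ is the balance point of the curve (x, θ) -/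
def Bal (δ : (ℝ → Y) → ℝ → ℝ → ℝ) (c : ℝ → Y) (x θ : ℝ → ℝ) (a b ξ : ℝ) : Prop :=
  Top (fun t => δ c ξ (x t)) θ a b = Top (fun t => -δ c ξ (x t)) θ a b

/-- the height function crosses from below α to above β, and the middle band only on [a₁,b₁] -/
structure Ht (θ : ℝ → ℝ) (a₀ a₁ b₁ b₀ α β : ℝ) : Prop where
  cont : ContinuousOn θ (Icc a₀ b₀)
  le₁ : a₀ ≤ a₁
  le₂ : a₁ ≤ b₁
  le₃ : b₁ ≤ b₀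
  lo : α < π / 4
  hi : 3 * π / 4 < β
  start : θ a₀ ≤ α
  stop : β ≤ θ b₀
  left : ∀ t ∈ Icc a₀ a₁, θ t < π / 4
  right : ∀ t ∈ Icc b₁ b₀, 3 * π / 4 < θ t
  mid : ∀ t ∈ Icc a₁ b₁, α < θ t ∧ θ t < β

/-- the fibres of a second product structure on Y × (0, pi) -/
structure Pair {V : Type} [TopologicalSpace V] (Γ : V × ℝ → Y) (Θ : V × ℝ → ℝ) (A : Y → V)
    (τ : Y → ℝ) (a₀ a₁ b₁ b₀ α β : ℝ) : Prop where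
  cΓ : ContinuousOn Γ (univ ×ˢ Icc a₀ b₀)
  cΘ : ContinuousOn Θ (univ ×ˢ Icc a₀ b₀)
  ht : ∀ v, Ht (fun t => Θ (v, t)) a₀ a₁ b₁ b₀ α β
  inj : ∀ v v', ∀ t ∈ Icc a₀ b₀, ∀ t' ∈ Icc a₀ b₀, Γ (v, t) = Γ (v', t') →
    Θ (v, t) = Θ (v', t') → v = v' ∧ t = t'
  cA : Continuous A
  cτ : Continuous τ
  sec : ∀ y, τ y ∈ Icc a₀ b₀ ∧ Γ (A y, τ y) = y ∧ Θ (A y, τ y) = π / 2
  dich : ∀ v, (∀ t ∈ Icc a₀ b₀, HasBox (Γ (v, t))) ∨ ∀ t ∈ Icc a₀ b₀, Γ (v, t) = Γ (v, a₀)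

/-- y is the point assigned to the fibre v -/
def Rel {V : Type} (δ : (ℝ → Y) → ℝ → ℝ → ℝ) (Γ : V × ℝ → Y) (Θ : V × ℝ → ℝ) (a₀ b₀ : ℝ)
    (v : V) (y : Y) : Prop :=
  (HasBox (Γ (v, a₀)) ∧ ∃ (c : ℝ → Y) (x : ℝ → ℝ) (t₁ : ℝ), Leaf c ∧ ContinuousOn x (Icc a₀ b₀) ∧
    (∀ t ∈ Icc a₀ b₀, Γ (v, t) = c (x t)) ∧ t₁ ∈ Icc a₀ b₀ ∧
    Bal δ c x (fun t => Θ (v, t)) a₀ b₀ (x t₁) ∧ y = Γ (v, t₁)) ∨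
  (¬ HasBox (Γ (v, a₀)) ∧ y = Γ (v, a₀))

end defs

/-- nonvanishing functions on closed sets extend up to a small error -/
def Ext (Y : Type) [MetricSpace Y] : Prop :=
  ∀ (A : Set Y) (u : Y → ℂ), IsClosed A → ContinuousOn u A → (∀ y ∈ A, u y ≠ 0) →
    ∃ f : Y → ℂ, Continuous f ∧ (∀ y, f y ≠ 0) ∧ ∀ y ∈ A, ‖f y - u y‖ < ‖u y‖

def SDim : Prop := ∀ (Y : Type) [MetricSpace Y] [CompactSpace Y], DimLE1 Y → Ext Y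

def SLF : Prop := ∀ (Y : Type) [MetricSpace Y], Ext Y → ∀ y : Y, Mov y →
  ∃ B : Set Y, IsOpen B ∧ y ∈ B ∧ LF B

def SArc : Prop := ∀ (Y : Type) [MetricSpace Y] (γ : ℝ → Y) (s t : ℝ), s ≤ t →
  ContinuousOn γ (Icc s t) → γ s ≠ γ t →
  ∃ c : ℝ → Y, ArcIn (γ '' Icc s t) c 0 1 ∧ c 0 = γ s ∧ c 1 = γ t

def STree : Prop := ∀ (Y : Type) [MetricSpace Y] (B : Set Y), LF B → Tree B

def SH1 : Prop := ∀ (Y : Type) [MetricSpace Y] (K : Set Y) (x : Y) (θ ρ : ℝ) (u : Y × ℝ → ℂ),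
  0 < ρ → IsPreconnected (K \ {x}) →
  ContinuousOn u ((K ×ˢ Icc (θ - ρ) (θ + ρ)) \ {(x, θ)}) →
  (∀ w ∈ (K ×ˢ Icc (θ - ρ) (θ + ρ)) \ {(x, θ)}, u w ≠ 0) →
  HasLog (fun y => u (y, θ + ρ)) K → HasLog (fun y => u (y, θ - ρ)) K →
  HasLog u ((K ×ˢ Icc (θ - ρ) (θ + ρ)) \ {(x, θ)})

def SH : Prop := ∀ (Y : Type) [MetricSpace Y] (B K : Set Y) (G : ℝ × ℝ → Y) (a b a' b' : ℝ)
  (x p₁ p₂ : Y) (θ ρ : ℝ) (u₁ u₂ : Y × ℝ → ℂ), 0 < ρ → LF B →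
  ContinuousOn G (Icc a b ×ˢ Icc a' b') → K = G '' (Icc a b ×ˢ Icc a' b') → K ⊆ B → x ∈ K →
  ContinuousOn u₁ ((K ×ˢ Icc (θ - ρ) (θ + ρ)) \ {(x, θ)}) →
  ContinuousOn u₂ ((K ×ˢ Icc (θ - ρ) (θ + ρ)) \ {(x, θ)}) →
  (∀ w ∈ (K ×ˢ Icc (θ - ρ) (θ + ρ)) \ {(x, θ)}, u₁ w ≠ 0 ∧ u₂ w ≠ 0) →
  ((∀ y ∈ K, y ≠ x → JoinedIn (B \ {x}) y p₁) →
    HasLog u₁ ((K ×ˢ Icc (θ - ρ) (θ + ρ)) \ {(x, θ)})) ∧
  ((∀ y ∈ K, y ≠ x → JoinedIn (B \ {x}) y p₁ ∨ JoinedIn (B \ {x}) y p₂) →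
    ∃ m n : ℤ, ¬ (m = 0 ∧ n = 0) ∧
      HasLog (fun w => u₁ w ^ m * u₂ w ^ n) ((K ×ˢ Icc (θ - ρ) (θ + ρ)) \ {(x, θ)}))

def SNolog : Prop := ∀ (r : ℝ) (f : ℝ → ℝ) (m : ℤ), 0 < r → ContinuousOn f (Icc (-r) r) →
  (∀ ξ ∈ Icc (-r) r, (ξ < 0 → f ξ < 0) ∧ (0 < ξ → 0 < f ξ)) →
  HasLog (fun w : ℝ × ℝ => ((f w.1 : ℂ) + (w.2 : ℂ) * Complex.I) ^ m)
    ((Icc (-r) r ×ˢ Icc (-r) r) \ {(0, 0)}) → m = 0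

open Classical in
/-- the signed distance to x, negative in the direction of p, and its transport by S -/
def SSide : Prop := ∀ (Y : Type) [MetricSpace Y] (B : Set Y) (x p : Y) (σ : Y → ℝ),
  (∀ y, σ y = if JoinedIn (B \ {x}) y p then -dist y x else dist y x) →
  (∀ (γ : ℝ → Y) (s t : ℝ), PathIn B γ s t → ContinuousOn (fun r => σ (γ r)) (Icc s t)) ∧
  ∀ (G : ℝ × ℝ → Y) (a b a' b' c d : ℝ) (S : Y × ℝ → Y × ℝ),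
    ContinuousOn G (Icc a b ×ˢ Icc a' b') →
    ContinuousOn S ((G '' (Icc a b ×ˢ Icc a' b')) ×ˢ Icc c d) →
    (∀ w ∈ (G '' (Icc a b ×ˢ Icc a' b')) ×ˢ Icc c d, (S w).1 ∈ B) →
    ContinuousOn (fun w => σ (S w).1) ((G '' (Icc a b ×ˢ Icc a' b')) ×ˢ Icc c d)

def SInv2 : Prop := ∀ (Y : Type) [MetricSpace Y] (B : Set Y) (O O' : Set (Y × ℝ))
  (T S : Y × ℝ → Y × ℝ) (c : ℝ → Y) (a b ξ₀ θ : ℝ), LF B → LocH B O O' T S → ArcIn B c a b →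
  a < ξ₀ → ξ₀ < b → (c ξ₀, θ) ∈ O → Two B (T (c ξ₀, θ)).1

def SInv3 : Prop := ∀ (Y : Type) [MetricSpace Y] (B : Set Y) (O O' : Set (Y × ℝ))
  (T S : Y × ℝ → Y × ℝ) (c : Fin 3 → ℝ → Y) (x : Y) (r θ : ℝ), LF B → LocH B O O' T S → 0 < r →
  (∀ i, ArcIn B (c i) 0 r ∧ c i 0 = x) →
  (∀ i j, i ≠ j → ¬ JoinedIn (B \ {x}) (c i r) (c j r)) → (x, θ) ∈ O →
  ∃ (k : Fin 3 → Fin 3) (ξ η : Fin 3 → ℝ),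
    (∀ i, ξ i ∈ Icc 0 r ∧ η i ∈ Icc (θ - r) (θ + r) ∧ (c (k i) (ξ i), η i) ∈ O ∧
      (T (c (k i) (ξ i), η i)).1 ≠ (T (x, θ)).1) ∧
    ∀ i j, i ≠ j → ¬ JoinedIn (B \ {(T (x, θ)).1}) (T (c (k i) (ξ i), η i)).1
      (T (c (k j) (ξ j), η j)).1

def SImm : Prop := ∀ (Y : Type) [MetricSpace Y],
  (∀ (D : Set ((Y × ℝ) × ℝ)) (F : Y × ℝ → ℝ → Y × ℝ) (y : Y) (θ s : ℝ), LFlow D F →
    ((y, θ), s) ∈ D → (F (y, θ) s).1 ≠ y → Mov y) ∧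
  IsOpen {y : Y | Mov y} ∧
  (∀ (y : Y) (B : Set Y), Mov y → IsOpen B → y ∈ B → ∃ D F θ s, Slide B y D F θ s) ∧
  ∀ (D : Set ((Y × ℝ) × ℝ)) (F : Y × ℝ → ℝ → Y × ℝ) (B : Set Y) (r : ℝ), LFlow D F → IsOpen B →
    LocH B {w | (w, r) ∈ D ∧ w.1 ∈ B ∧ (F w r).1 ∈ B} {w | (w, -r) ∈ D ∧ w.1 ∈ B ∧ (F w (-r)).1 ∈ B}
      (fun w => F w r) (fun w => F w (-r))

def STwo : Prop := ∀ (Y : Type) [MetricSpace Y] (B : Set Y), Nice B → ∀ y ∈ B, Two B y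

def SNoTri : Prop := ∀ (Y : Type) [MetricSpace Y] (B : Set Y), Nice B → ∀ y ∈ B, ¬ Three B y

def SCol : Prop := ∀ (Y : Type) [MetricSpace Y] (B : Set Y) (c c' : ℝ → Y) (a b a' b' : ℝ),
  Lin B → ArcIn B c a b → ArcIn B c' a' b' → c a = c' a' →
  JoinedIn (B \ {c a}) (c b) (c' b') → c' b' ∈ c '' Icc a b ∨ c b ∈ c' '' Icc a' b'

def SWhit : Prop := ∀ (Y : Type) [MetricSpace Y] [CompactSpace Y], ∃ μ : Set Y → ℝ, Whit μ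

def SRect : Prop := ∀ (Y : Type) [MetricSpace Y] [CompactSpace Y] (B : Set Y) (G : ℝ × ℝ → Y)
  (a b a' b' : ℝ), Lin B → a ≤ b → a' ≤ b' → ContinuousOn G (Icc a b ×ˢ Icc a' b') →
  MapsTo G (Icc a b ×ˢ Icc a' b') B →
  ∃ (β : ℝ → Y) (α₀ α₁ : ℝ) (l : ℝ × ℝ → ℝ), ArcIn B β α₀ α₁ ∧
    ContinuousOn l (Icc a b ×ˢ Icc a' b') ∧
    ∀ w ∈ Icc a b ×ˢ Icc a' b', l w ∈ Icc α₀ α₁ ∧ β (l w) = G w

def SChain : Prop := ∀ (Y : Type) [MetricSpace Y] (β : ℝ → Y) (P P' : ℝ → ℝ)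
  (s ρ κ e d : ℝ) (N : ℕ), 0 ≤ s → ContinuousOn P (Icc 0 s) → (∀ r ∈ Icc 0 s, P r < P' r) →
  P 0 ≤ P s → (∀ r ∈ Icc 0 s, ∃ u ∈ Icc (P r) (P' r), ∃ v ∈ Icc (P r) (P' r), ρ ≤ dist (β u) (β v)) →
  (∀ r ∈ Icc 0 s, dist (β (P r)) (β (P' r)) ≤ e) →
  (∀ r ∈ Icc 0 s, ∀ u ∈ Icc (P r) (P' r), dist (β (P r)) (β u) ≤ d) →
  (∀ r ∈ Icc 0 s, ∀ r' ∈ Icc 0 s, |r - r'| < κ → dist (β (P r)) (β (P r')) < ρ) →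
  s < N * κ → dist (β (P 0)) (β (P s)) ≤ N * e + d

def SNF : Prop := ∀ (Y : Type) [MetricSpace Y] [CompactSpace Y] (B : Set Y), Lin B →
  ∀ y ∈ B, Mov y → ∃ B₀ : Set Y, IsOpen B₀ ∧ y ∈ B₀ ∧ B₀ ⊆ B ∧ UF B₀

/-- reparametrisation, uniqueness and equicontinuity of arcs parametrised by size -/
def SWA : Prop := ∀ (Y : Type) [MetricSpace Y] (B : Set Y) (μ : Set Y → ℝ), Whit μ →
  (∀ (c : ℝ → Y) (a b : ℝ), ArcIn B c a b → ∃ g : ℝ → Y, WArc B μ g (μ (c '' Icc a b)) ∧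
    StrictMonoOn (fun ξ => μ (c '' Icc a ξ)) (Icc a b) ∧
    ∀ ξ ∈ Icc a b, μ (c '' Icc a ξ) ∈ Icc 0 (μ (c '' Icc a b)) ∧ g (μ (c '' Icc a ξ)) = c ξ ∧
      g '' Icc 0 (μ (c '' Icc a ξ)) = c '' Icc a ξ) ∧
  (Lin B → ∀ (g g' : ℝ → Y) (m m' : ℝ), WArc B μ g m → WArc B μ g' m' → g 0 = g' 0 →
    JoinedIn (B \ {g 0}) (g m) (g' m') → ∀ ξ, 0 ≤ ξ → ξ ≤ m → ξ ≤ m' → g ξ = g' ξ) ∧
  (UF B → ∀ η > 0, ∃ κ > 0, ∀ (g : ℝ → Y) (m : ℝ), WArc B μ g m →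
    ∀ ξ ∈ Icc 0 m, ∀ ξ' ∈ Icc 0 m, |ξ - ξ'| < κ → dist (g ξ) (g ξ') < η)

/-- limits of arcs parametrised by size -/
def SLim : Prop := ∀ (Y : Type) [MetricSpace Y] (B K : Set Y) (μ : Set Y → ℝ) (ι : Type)
  (U : Ultrafilter ι) (g : ι → ℝ → Y) (m : ι → ℝ) (m₀ : ℝ), Whit μ → UF B → IsCompact K → K ⊆ B →
  (∀ᶠ i in (U : Filter ι), WArc B μ (g i) (m i) ∧ MapsTo (g i) (Icc 0 (m i)) K) →
  Tendsto m U (𝓝 m₀) → ∃ g₀ : ℝ → Y, WArc B μ g₀ m₀ ∧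
    ∀ (ξ : ι → ℝ) (ξ₀ : ℝ), (∀ᶠ i in (U : Filter ι), ξ i ∈ Icc 0 (m i)) → Tendsto ξ U (𝓝 ξ₀) →
      Tendsto (fun i => g i (ξ i)) U (𝓝 (g₀ ξ₀))

/-- rays of a fixed size in every direction -/
def SRay : Prop := ∀ (Y : Type) [MetricSpace Y] [CompactSpace Y] (B : Set Y) (μ : Set Y → ℝ)
  (y₀ : Y), Whit μ → Lin B → UF B → y₀ ∈ B → ∃ ε > 0, ∃ m > 0, Metric.closedBall y₀ (2 * ε) ⊆ B ∧
    (∀ g : ℝ → Y, WArc B μ g m → ∀ ξ ∈ Icc 0 m, dist (g 0) (g ξ) < ε) ∧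
    ∀ y ∈ Metric.ball y₀ ε, ∀ p, JoinedIn B y p → p ≠ y →
      ∃ g : ℝ → Y, WArc B μ g m ∧ g 0 = y ∧ JoinedIn (B \ {y}) (g m) p

def SRays : Prop := ∀ (Y : Type) [MetricSpace Y] [CompactSpace Y] (B : Set Y) (μ : Set Y → ℝ)
  (y₀ : Y), Whit μ → Lin B → UF B → y₀ ∈ B →
  ∃ N gp gm m ep em, y₀ ∈ N ∧ Rays B μ N gp gm m ep em

def SPlaq : Prop := ∀ (Y : Type) [MetricSpace Y] (B : Set Y) (μ : Set Y → ℝ) (N : Set Y)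
  (gp gm : Y → ℝ → Y) (m : ℝ) (ep em y₀ : Y), Whit μ → Lin B → UF B →
  Rays B μ N gp gm m ep em → y₀ ∈ N → ∃ N' h, y₀ ∈ N' ∧ Plaq N' h m

def SImp : Prop := ∀ (X : Type) [TopologicalSpace X] (N : Set X) (f : X × ℝ → ℝ) (a b : ℝ),
  a ≤ b → ContinuousOn f (N ×ˢ Icc a b) →
  (∀ x ∈ N, StrictMonoOn (fun ξ => f (x, ξ)) (Icc a b)) →
  (∀ x ∈ N, f (x, a) ≤ 0 ∧ 0 ≤ f (x, b)) →
  ∃ g : X → ℝ, ContinuousOn g N ∧ ∀ x ∈ N, g x ∈ Icc a b ∧ f (x, g x) = 0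

def SBox : Prop := ∀ (Y : Type) [MetricSpace Y] (N : Set Y) (h : Y → ℝ → Y) (m : ℝ) (y₀ : Y),
  Plaq N h m → y₀ ∈ N → HasBox y₀

def SLeaf : Prop := ∀ (Y : Type) [MetricSpace Y],
  (∀ (C : Type) [TopologicalSpace C] (h : C × ℝ → Y), Box h → ∀ κ, Leaf fun ξ => h (κ, ξ)) ∧
  (∀ (c : ℝ → Y) (x x' : ℝ → ℝ) (a b : ℝ), Leaf c → ContinuousOn x (Icc a b) →
    ContinuousOn x' (Icc a b) → (∀ t ∈ Icc a b, c (x t) = c (x' t)) →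
    ∀ t₀ ∈ Icc a b, x t₀ = x' t₀ → ∀ t ∈ Icc a b, x t = x' t) ∧
  ∀ y : Y, HasBox y → ∃ (C : Type) (_ : TopologicalSpace C) (h : C × ℝ → Y),
    IsOpenEmbedding h ∧ TPD C ∧ y ∈ range h

/-- extension of a box to the right by an embedded box -/
def SExt : Prop := ∀ (Y C C₂ : Type) [MetricSpace Y] [TopologicalSpace C] [TopologicalSpace C₂]
  (h : C × ℝ → Y) (C₀ : Set C) (h₂ : C₂ × ℝ → Y) (κ₀ : C) (κ₂ : C₂) (ξ₀ η₀ ξp ηp : ℝ),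
  BoxOn h C₀ → κ₀ ∈ C₀ → IsOpenEmbedding h₂ → TPD C₂ → h (κ₀, ξ₀) = h₂ (κ₂, η₀) →
  (∃ ε > 0, ∀ ξ ∈ Ioo ξ₀ (ξ₀ + ε), ∃ η > η₀, h (κ₀, ξ) = h₂ (κ₂, η)) →
  ∃ (h₃ : C × ℝ → Y) (C' : Set C) (ξ₁ : ℝ), BoxOn h₃ C' ∧ κ₀ ∈ C' ∧ C' ⊆ C₀ ∧
    (∀ κ ξ, ξ ≤ max ξ₀ ξp → h₃ (κ, ξ) = h (κ, ξ)) ∧ ξ₀ < ξ₁ ∧
    (∀ ξ ∈ Icc ξ₀ ξ₁, h₃ (κ₀, ξ) ∈ range h₂) ∧ ∃ η > ηp, h₃ (κ₀, ξ₁) = h₂ (κ₂, η)

def SGlue : Prop := ∀ (Y C C₂ P : Type) [MetricSpace Y] [TopologicalSpace C] [TopologicalSpace C₂]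
  [TopologicalSpace P] (h : C × ℝ → Y) (C₀ : Set C) (h₂ : C₂ × ℝ → Y) (Γ : P × ℝ → Y)
  (N : Set P) (p₀ : P) (κ : P → C) (x : P × ℝ → ℝ) (a t₀ t₁ : ℝ),
  BoxOn h C₀ → IsOpenEmbedding h₂ → TPD C₂ → IsOpen N → p₀ ∈ N → a ≤ t₀ → t₀ ≤ t₁ →
  ContinuousOn κ N → MapsTo κ N C₀ → ContinuousOn x (N ×ˢ Icc a t₀) →
  ContinuousOn Γ (N ×ˢ Icc a t₁) → (∀ p ∈ N, ∀ t ∈ Icc a t₀, Γ (p, t) = h (κ p, x (p, t))) →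
  (∀ t ∈ Icc t₀ t₁, Γ (p₀, t) ∈ range h₂) →
  ∃ (h₃ : C × ℝ → Y) (C' : Set C) (N' : Set P) (x' : P × ℝ → ℝ), BoxOn h₃ C' ∧ IsOpen N' ∧
    p₀ ∈ N' ∧ N' ⊆ N ∧ MapsTo κ N' C' ∧ ContinuousOn x' (N' ×ˢ Icc a t₁) ∧
    ∀ p ∈ N', ∀ t ∈ Icc a t₁, Γ (p, t) = h₃ (κ p, x' (p, t))

/-- long boxes -/
def SLB : Prop := ∀ (Y P : Type) [MetricSpace Y] [TopologicalSpace P] (Γ : P × ℝ → Y) (p₀ : P)
  (a b : ℝ), a ≤ b → ContinuousOn Γ (univ ×ˢ Icc a b) → (∀ t ∈ Icc a b, HasBox (Γ (p₀, t))) →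
  ∃ (C : Type) (_ : TopologicalSpace C) (h : C × ℝ → Y) (N : Set P) (κ : P → C) (x : P × ℝ → ℝ),
    Box h ∧ IsOpen N ∧ p₀ ∈ N ∧ ContinuousOn κ N ∧ ContinuousOn x (N ×ˢ Icc a b) ∧
    ∀ p ∈ N, ∀ t ∈ Icc a b, Γ (p, t) = h (κ p, x (p, t))

def SUni : Prop := ∀ (Y : Type) [MetricSpace Y] (c c' : ℝ → Y) (x x' : ℝ → ℝ) (a b : ℝ),
  Leaf c → Leaf c' → ContinuousOn x (Icc a b) → ContinuousOn x' (Icc a b) →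
  (∀ t ∈ Icc a b, c (x t) = c' (x' t)) →
  ∃ φ : ℝ → ℝ, ContinuousOn φ (x '' Icc a b) ∧
    (StrictMonoOn φ (x '' Icc a b) ∨ StrictAntiOn φ (x '' Icc a b)) ∧ ∀ t ∈ Icc a b, φ (x t) = x' t

def SMu : Prop := ∀ (Y : Type) [MetricSpace Y], ∃ δ : (ℝ → Y) → ℝ → ℝ → ℝ, Mu δ

/-- two disjoint curves crossing a strip are ordered -/
def SOrd0 : Prop := ∀ (x θ x' θ' : ℝ → ℝ) (s t s' t' α β : ℝ), s ≤ t → s' ≤ t' →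
  ContinuousOn x (Icc s t) → ContinuousOn θ (Icc s t) → ContinuousOn x' (Icc s' t') →
  ContinuousOn θ' (Icc s' t') → θ s = α → θ t = β → θ' s' = α → θ' t' = β →
  (∀ u ∈ Icc s t, θ u ∈ Icc α β) → (∀ u ∈ Icc s' t', θ' u ∈ Icc α β) →
  (∀ u ∈ Icc s t, ∀ u' ∈ Icc s' t', ¬ (x u = x' u' ∧ θ u = θ' u')) →
  ((∀ u' ∈ Icc s' t', ∃ u ∈ Icc s t, θ u = θ' u' ∧ x u < x' u') ∧
    ∀ u ∈ Icc s t, ∃ u' ∈ Icc s' t', θ u = θ' u' ∧ x u < x' u') ∨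
  ((∀ u' ∈ Icc s' t', ∃ u ∈ Icc s t, θ u = θ' u' ∧ x' u' < x u) ∧
    ∀ u ∈ Icc s t, ∃ u' ∈ Icc s' t', θ u = θ' u' ∧ x' u' < x u)

def SCmp : Prop := ∀ (Y : Type) [MetricSpace Y] (δ : (ℝ → Y) → ℝ → ℝ → ℝ) (c : ℝ → Y)
  (x θ x' θ' : ℝ → ℝ) (a₀ a₁ b₁ b₀ α β ξ ξ' : ℝ), Mu δ → Leaf c → Ht θ a₀ a₁ b₁ b₀ α β →
  Ht θ' a₀ a₁ b₁ b₀ α β → ContinuousOn x (Icc a₀ b₀) → ContinuousOn x' (Icc a₀ b₀) →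
  (∀ t ∈ Icc a₀ b₀, ∀ t' ∈ Icc a₀ b₀, ¬ (x t = x' t' ∧ θ t = θ' t')) →
  Bal δ c x θ a₀ b₀ ξ → Bal δ c x' θ' a₀ b₀ ξ' →
  (ξ < ξ' ∧ ∀ t' ∈ Icc a₀ b₀, θ' t' = π / 2 → ∃ t ∈ Icc a₀ b₀, θ t = π / 2 ∧ x t < x' t') ∨
  (ξ' < ξ ∧ ∀ t' ∈ Icc a₀ b₀, θ' t' = π / 2 → ∃ t ∈ Icc a₀ b₀, θ t = π / 2 ∧ x' t' < x t)

def SBal1 : Prop := ∀ (Y : Type) [MetricSpace Y] (δ : (ℝ → Y) → ℝ → ℝ → ℝ) (c : ℝ → Y)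
  (x θ : ℝ → ℝ) (a b : ℝ), Mu δ → Leaf c → a ≤ b → ContinuousOn x (Icc a b) →
  ContinuousOn θ (Icc a b) →
  (∀ ξ ξ', Bal δ c x θ a b ξ → Bal δ c x θ a b ξ' → ξ = ξ') ∧
  (∀ ξ, Bal δ c x θ a b ξ → ∃ t ∈ Icc a b, ξ = x t) ∧
  ∀ (c' : ℝ → Y) (x' : ℝ → ℝ), Leaf c' → ContinuousOn x' (Icc a b) →
    (∀ t ∈ Icc a b, c (x t) = c' (x' t)) → ∀ t₁ ∈ Icc a b, Bal δ c x θ a b (x t₁) →
    Bal δ c' x' θ a b (x' t₁)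

def SBal2 : Prop := ∀ (Y C P : Type) [MetricSpace Y] [TopologicalSpace C] [TopologicalSpace P]
  (δ : (ℝ → Y) → ℝ → ℝ → ℝ) (h : C × ℝ → Y) (N : Set P) (p₀ : P) (κ : P → C) (x Θ : P × ℝ → ℝ)
  (a b : ℝ), Mu δ → Continuous h → (∀ k, Leaf fun ξ => h (k, ξ)) → a ≤ b → IsOpen N → p₀ ∈ N →
  ContinuousOn κ N → ContinuousOn x (N ×ˢ Icc a b) → ContinuousOn Θ (N ×ˢ Icc a b) →
  ∃ (N' : Set P) (ξ : P → ℝ), IsOpen N' ∧ p₀ ∈ N' ∧ N' ⊆ N ∧ ContinuousOn ξ N' ∧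
    ∀ p ∈ N', Bal δ (fun u => h (κ p, u)) (fun t => x (p, t)) (fun t => Θ (p, t)) a b (ξ p)

def SPsi1 : Prop := ∀ (Y V : Type) [MetricSpace Y] [TopologicalSpace V]
  (δ : (ℝ → Y) → ℝ → ℝ → ℝ) (Γ : V × ℝ → Y) (Θ : V × ℝ → ℝ) (A : Y → V) (τ : Y → ℝ)
  (a₀ a₁ b₁ b₀ α β : ℝ), Mu δ → Pair Γ Θ A τ a₀ a₁ b₁ b₀ α β →
  ∃ Ψ : V → Y, Continuous Ψ ∧ ∀ v y, Rel δ Γ Θ a₀ b₀ v y ↔ y = Ψ v

def SPsi2 : Prop := ∀ (Y V : Type) [MetricSpace Y] [TopologicalSpace V]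
  (δ : (ℝ → Y) → ℝ → ℝ → ℝ) (Γ : V × ℝ → Y) (Θ : V × ℝ → ℝ) (A : Y → V) (τ : Y → ℝ)
  (a₀ a₁ b₁ b₀ α β : ℝ), Mu δ → Pair Γ Θ A τ a₀ a₁ b₁ b₀ α β →
  ∀ v v' y, Rel δ Γ Θ a₀ b₀ v y → Rel δ Γ Θ a₀ b₀ v' y → v = v'

def SPsi3 : Prop := ∀ (Y V : Type) [MetricSpace Y] [TopologicalSpace V]
  (δ : (ℝ → Y) → ℝ → ℝ → ℝ) (Γ : V × ℝ → Y) (Θ : V × ℝ → ℝ) (A : Y → V) (τ : Y → ℝ)
  (a₀ a₁ b₁ b₀ α β : ℝ), Mu δ → Pair Γ Θ A τ a₀ a₁ b₁ b₀ α β →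
  IsClosed {y | ∃ v, Rel δ Γ Θ a₀ b₀ v y} → ∀ y, ∃ v, Rel δ Γ Θ a₀ b₀ v y

def SFlow : Prop := ∀ (Z Y V : Type) [TopologicalSpace Z] [T2Space Z] [MetricSpace Y]
  [CompactSpace Y] [TopologicalSpace V] [CompactSpace V] (n p n' p' : Z) (q : Y × ℝ → Z)
  (q' : V × ℝ → Z), Susp Z Y n p q → Susp Z V n' p' q' →
  ∀ (v : V) (t t' : ℝ) (y y' : Y) (θ θ' : ℝ),
    (∀ u ∈ uIcc t t', u ∈ Ioo 0 π ∧ q' (v, u) ≠ n ∧ q' (v, u) ≠ p) → θ ∈ Ioo 0 π → θ' ∈ Ioo 0 π →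
    q' (v, t) = q (y, θ) → q' (v, t') = q (y', θ') → y' ≠ y → Mov y

def SPole : Prop := ∀ (Z Y V : Type) [TopologicalSpace Z] [T2Space Z] [MetricSpace Y]
  [CompactSpace Y] [TopologicalSpace V] [CompactSpace V] (n p n' p' : Z) (q : Y × ℝ → Z)
  (q' : V × ℝ → Z) (y₀ : Y) (θ₀ : ℝ), Susp Z Y n p q → Susp Z V n' p' q' → θ₀ ∈ Ioo 0 π →
  n' = q (y₀, θ₀) →
  (∃ E : Set Y, E.Finite ∧ ∀ y ∉ E, Mov y ∧ Joined y₀ y) ∧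
    ∀ U ∈ 𝓝 y₀, ∃ U' ∈ 𝓝 y₀, ∀ y ∈ U', JoinedIn U y₀ y

def SCirc1 : Prop := ∀ (Y : Type) [MetricSpace Y] [CompactSpace Y] (E : Set Y) (y₀ : Y),
  (∀ y : Y, HasBox y) → E.Finite → (∀ y ∉ E, Joined y₀ y) →
  (∀ U ∈ 𝓝 y₀, ∃ U' ∈ 𝓝 y₀, ∀ y ∈ U', JoinedIn U y₀ y) →
  ∃ (c : ℝ → Y) (α β : ℝ), IsLocalHomeomorph c ∧ c '' Icc α β = univ

def SCirc2 : Prop := ∀ (Y : Type) [MetricSpace Y] (c : ℝ → Y) (α β : ℝ),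
  IsLocalHomeomorph c → c '' Icc α β = univ → ∃ n p q, Susp Y Bool n p q

def SFin : Prop := ∀ (X Y : Type) [MetricSpace X] [TopologicalSpace Y] (E : Set Y),
  GroupSpace X → Nonempty (Bd X ≃ₜ Y) → E.Finite → E.Nonempty →
  (∀ f : Y ≃ₜ Y, ∀ y ∈ E, f y ∈ E) →
  ∃ (W : Type) (_ : TopologicalSpace W), CompactSpace W ∧ ∃ n p q, Susp Y W n p q

def SSus : Prop := ∀ (Y W : Type) [TopologicalSpace Y] [T2Space Y] [TopologicalSpace W]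
  [CompactSpace W] (n p : Y) (q : W × ℝ → Y), Susp Y W n p q → IsSusp Y

def SPair : Prop := ∀ (Z Y V : Type) [TopologicalSpace Z] [T2Space Z] [MetricSpace Y]
  [CompactSpace Y] [Nonempty Y] [TopologicalSpace V] [CompactSpace V] (n p : Z) (q : Y × ℝ → Z)
  (q' : V × ℝ → Z), Susp Z Y n p q → Susp Z V n p q' → (∀ y : Y, Mov y → HasBox y) →
  ∃ (Γ : V × ℝ → Y) (Θ : V × ℝ → ℝ) (A : Y → V) (τ : Y → ℝ) (a₀ a₁ b₁ b₀ α β : ℝ),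
    Pair Γ Θ A τ a₀ a₁ b₁ b₀ α β

end Pool.Agent.MP_0c1703_gt.H59
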